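import Mathlib

set_option autoImplicit false

/-!
# Growth of an edge-closed family of triangles (Euler inequality)
-/

open Finset

namespace Pool.Agent.Helper92.P6

/-- Connected relation on a finite set: twice the number of points is at most the number of related
ordered pairs plus two. -/
theorem card_le_of_connected {V : Type} [DecidableEq V] [Fintype V] (S : Finset V)
    (r : V → V → Prop) [DecidableRel r] (hS : S.Nonempty)
    (hsymm : ∀ x y, r x y → r y x) (hirr : ∀ x, ¬ r x x)
    (hr : ∀ x y, r x y → x ∈ S ∧ y ∈ S)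
    (hconn : ∀ x ∈ S, ∀ y ∈ S, Relation.ReflTransGen r x y) :
    2 * #S ≤ #(univ.filter (fun p : V × V => r p.1 p.2)) + 2 := by
  classical
  let K : SimpleGraph {x // x ∈ S} :=
    { Adj := fun x y => r x.1 y.1
      symm := ⟨fun x y h => hsymm _ _ h⟩
      loopless := ⟨fun x h => hirr _ h⟩ }
  have hadj : ∀ x y : {x // x ∈ S}, K.Adj x y ↔ r x.1 y.1 := fun x y => Iff.rfl
  have hreach : ∀ x y, Relation.ReflTransGen r x y → ∀ hx : x ∈ S, ∃ hy : y ∈ S,
      K.Reachable ⟨x, hx⟩ ⟨y, hy⟩ := by
    intro x y hxy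
    induction hxy with
    | refl => intro hx; exact ⟨hx, SimpleGraph.Reachable.refl _⟩
    | tail hab hbc ih =>
      intro hx
      obtain ⟨hb, h1⟩ := ih hx
      have hc := (hr _ _ hbc).2
      refine ⟨hc, h1.trans ?_⟩
      exact SimpleGraph.Adj.reachable ((hadj _ _).2 hbc)
  haveI : Nonempty {x // x ∈ S} := ⟨⟨hS.choose, hS.choose_spec⟩⟩
  have hK : K.Connected := by
    rw [SimpleGraph.connected_iff]
    refine ⟨?_, inferInstance⟩
    intro x y
    obtain ⟨_, h⟩ := hreach x.1 y.1 (hconn x.1 x.2 y.1 y.2) x.2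
    exact h
  have h1 := hK.card_vert_le_card_edgeSet_add_one
  have h2 : Nat.card K.edgeSet = #K.edgeFinset := by
    rw [Nat.card_eq_fintype_card, SimpleGraph.edgeFinset_card]
  have h3 : Nat.card {x // x ∈ S} = #S := by
    rw [Nat.card_eq_fintype_card, Fintype.card_coe]
  rw [h2, h3] at h1
  have h4 : 2 * #K.edgeFinset = Fintype.card K.Dart := (K.dart_card_eq_twice_card_edges).symm
  have h5 : Fintype.card K.Dart ≤ #(univ.filter (fun p : V × V => r p.1 p.2)) := by
    rw [← card_univ]
    apply card_le_card_of_injOn (fun d : K.Dart => ((d.fst : V), (d.snd : V)))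
    · intro d _
      simp only [coe_filter, mem_univ, true_and, Set.mem_ofPred_eq]
      exact (hadj _ _).1 d.adj
    · intro d _ d' _ h
      simp only [Prod.mk.injEq] at h
      apply SimpleGraph.Dart.ext
      exact Prod.ext (Subtype.ext h.1) (Subtype.ext h.2)
  omega

section

variable {V : Type} [DecidableEq V] [Fintype V]

/-- The step relation. -/
def R (t : Finset (Finset V)) (D : Finset (Sym2 V)) (x y : V) : Prop :=
  x ≠ y ∧ (∃ f ∈ t, x ∈ f ∧ y ∈ f) ∧ s(x, y) ∉ D

/-- The invariant. -/
structure Inv (F : Finset (Finset V)) (f₀ : Finset V) (t : Finset (Finset V))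
    (D : Finset (Sym2 V)) : Prop where
  sub : t ⊆ F
  mem : f₀ ∈ t
  card : #D + 1 = #t
  edge : ∀ a b, s(a, b) ∈ D → a ≠ b ∧ (∃ f ∈ t, a ∈ f ∧ b ∈ f) ∧
    ∀ f ∈ F, a ∈ f → b ∈ f → f ∈ t
  conn : ∀ x y, (∃ f ∈ t, x ∈ f) → (∃ f ∈ t, y ∈ f) → Relation.ReflTransGen (R t D) x y

theorem R_symm {t : Finset (Finset V)} {D : Finset (Sym2 V)} {x y : V} (h : R t D x y) :
    R t D y x := by
  obtain ⟨h1, ⟨f, hf, hx, hy⟩, h3⟩ := h
  exact ⟨h1.symm, ⟨f, hf, hy, hx⟩, by rwa [Sym2.eq_swap]⟩

theorem growth {V : Type} [DecidableEq V] [Fintype V] (G : SimpleGraph V) (F : Finset (Finset V))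
    (hF3 : ∀ f ∈ F, f.card = 3)
    (hFc : ∀ f ∈ F, ∀ x ∈ f, ∀ y ∈ f, x ≠ y → G.Adj x y)
    (h2 : ∀ a b, G.Adj a b → (F.filter (fun f => a ∈ f ∧ b ∈ f)).card = 2)
    (f₀ : Finset V) (hf₀ : f₀ ∈ F) :
    ∃ t : Finset (Finset V), t ⊆ F ∧ f₀ ∈ t ∧
      (∀ f ∈ F, ∀ g ∈ t, ∀ a b, a ≠ b → a ∈ f → b ∈ f → a ∈ g → b ∈ g → f ∈ t) ∧
      6 * (Finset.univ.filter (fun x : V => ∃ f ∈ t, x ∈ f)).card ≤
        (Finset.univ.filter (fun p : V × V => p.1 ≠ p.2 ∧ ∃ f ∈ t, p.1 ∈ f ∧ p.2 ∈ f)).card + 12 := by
  classical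
  -- base
  have hbase : Inv F f₀ {f₀} ∅ := by
    refine ⟨by simpa using hf₀, by simp, by simp, by simp, ?_⟩
    intro x y hx hy
    simp only [mem_singleton, exists_eq_left] at hx hy
    by_cases hxy : x = y
    · subst hxy; exact Relation.ReflTransGen.refl
    · exact Relation.ReflTransGen.single ⟨hxy, ⟨f₀, by simp, hx, hy⟩, by simp⟩
  -- maximal
  obtain ⟨t, ht, htmax⟩ := (F.powerset.filter (fun t => ∃ D, Inv F f₀ t D)).exists_max_image
    (fun t => #t) ⟨{f₀}, by
      rw [mem_filter, mem_powerset]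
      exact ⟨by simpa using hf₀, ∅, hbase⟩⟩
  rw [mem_filter, mem_powerset] at ht
  obtain ⟨htF, D, hI⟩ := ht
  have hclosed : ∀ f ∈ F, ∀ g ∈ t, ∀ a b, a ≠ b → a ∈ f → b ∈ f → a ∈ g → b ∈ g → f ∈ t := by
    intro f hf g hg a b hab haf hbf hag hbg
    by_contra hft
    -- third vertex
    obtain ⟨c, hc⟩ : ∃ c, f = {a, b, c} := by
      have h3 := hF3 f hf
      have hsub : ({a, b} : Finset V) ⊆ f := by
        intro z hz
        rw [mem_insert, mem_singleton] at hz
        rcases hz with rfl | rfl <;> assumption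
      have hcard : #(f \ {a, b}) = 1 := by
        rw [card_sdiff_of_subset hsub, h3, card_pair hab]
      obtain ⟨c, hc⟩ := card_eq_one.1 hcard
      refine ⟨c, ?_⟩
      rw [← sdiff_union_of_subset hsub, hc]
      ext z
      simp only [mem_union, mem_singleton, mem_insert]
      tauto
    have hcf : c ∈ f := by rw [hc]; simp
    have hac : a ≠ c := by
      intro h
      have h3 := hF3 f hf
      rw [hc, ← h] at h3
      have : #({a, b, a} : Finset V) ≤ 2 := by
        have : ({a, b, a} : Finset V) = {a, b} := by ext z; simp; tauto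
        rw [this]; exact card_le_two
      omega
    have hbc : b ≠ c := by
      intro h
      have h3 := hF3 f hf
      rw [hc, ← h] at h3
      have : #({a, b, b} : Finset V) ≤ 2 := by
        have : ({a, b, b} : Finset V) = {a, b} := by ext z; simp
        rw [this]; exact card_le_two
      omega
    -- edges of f are not in D
    have hnotD : ∀ x y, x ∈ f → y ∈ f → s(x, y) ∉ D := by
      intro x y hx hy h
      exact hft ((hI.edge x y h).2.2 f hf hx hy)
    have hfg : f ≠ g := fun h => hft (h ▸ hg)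
    have hall : ∀ f' ∈ F, a ∈ f' → b ∈ f' → f' = f ∨ f' = g := by
      intro f' hf' haf' hbf'
      by_contra hcon
      push Not at hcon
      have := h2 a b (hFc f hf a haf b hbf hab)
      have hsub : ({f', f, g} : Finset (Finset V)) ⊆ F.filter (fun f => a ∈ f ∧ b ∈ f) := by
        intro z hz
        simp only [mem_insert, mem_singleton] at hz
        rw [mem_filter]
        rcases hz with rfl | rfl | rfl
        · exact ⟨hf', haf', hbf'⟩
        · exact ⟨hf, haf, hbf⟩
        · exact ⟨htF hg, hag, hbg⟩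
      have h3 := card_le_card hsub
      have h4 : #({f', f, g} : Finset (Finset V)) = 3 := by
        rw [card_eq_three]
        exact ⟨f', f, g, hcon.1, hcon.2, hfg, rfl⟩
      omega
    have hI' : Inv F f₀ (insert f t) (insert s(a, b) D) := by
      refine ⟨?_, mem_insert_of_mem hI.mem, ?_, ?_, ?_⟩
      · intro z hz
        rcases mem_insert.1 hz with rfl | hz
        · exact hf
        · exact htF hz
      · rw [card_insert_of_notMem hft, card_insert_of_notMem (hnotD a b haf hbf), hI.card]
      · intro x y hxy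
        rcases mem_insert.1 hxy with h | h
        · rw [Sym2.eq_iff] at h
          rcases h with ⟨rfl, rfl⟩ | ⟨rfl, rfl⟩
          · refine ⟨hab, ⟨f, mem_insert_self _ _, haf, hbf⟩, ?_⟩
            intro f' hf' h1 h2
            rcases hall f' hf' h1 h2 with rfl | rfl
            · exact mem_insert_self _ _
            · exact mem_insert_of_mem hg
          · refine ⟨hab.symm, ⟨f, mem_insert_self _ _, hbf, haf⟩, ?_⟩
            intro f' hf' h1 h2
            rcases hall f' hf' h2 h1 with rfl | rfl
            · exact mem_insert_self _ _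
            · exact mem_insert_of_mem hg
        · obtain ⟨h1, ⟨f', hf', h2, h3⟩, h4⟩ := hI.edge x y h
          exact ⟨h1, ⟨f', mem_insert_of_mem hf', h2, h3⟩,
            fun f'' hf'' hx hy => mem_insert_of_mem (h4 f'' hf'' hx hy)⟩
      · -- connectivity
        have hacR : R (insert f t) (insert s(a, b) D) a c := by
          refine ⟨hac, ⟨f, mem_insert_self _ _, haf, hcf⟩, ?_⟩
          rw [mem_insert, not_or]
          refine ⟨?_, hnotD a c haf hcf⟩
          intro h
          rw [Sym2.eq_iff] at h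
          rcases h with ⟨_, h⟩ | ⟨h, _⟩
          · exact hbc h.symm
          · exact hab h
        have hbcR : R (insert f t) (insert s(a, b) D) b c := by
          refine ⟨hbc, ⟨f, mem_insert_self _ _, hbf, hcf⟩, ?_⟩
          rw [mem_insert, not_or]
          refine ⟨?_, hnotD b c hbf hcf⟩
          intro h
          rw [Sym2.eq_iff] at h
          rcases h with ⟨h, _⟩ | ⟨_, h⟩
          · exact hab h.symm
          · exact hac h.symm
        have hstep : ∀ x y, R t D x y →
            Relation.ReflTransGen (R (insert f t) (insert s(a, b) D)) x y := by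
          intro x y hxy
          obtain ⟨h1, ⟨f', hf', hx, hy⟩, h3⟩ := hxy
          by_cases hs : s(x, y) = s(a, b)
          · rw [Sym2.eq_iff] at hs
            rcases hs with ⟨rfl, rfl⟩ | ⟨rfl, rfl⟩
            · exact (Relation.ReflTransGen.single hacR).tail (R_symm hbcR)
            · exact (Relation.ReflTransGen.single hbcR).tail (R_symm hacR)
          · refine Relation.ReflTransGen.single ⟨h1, ⟨f', mem_insert_of_mem hf', hx, hy⟩, ?_⟩
            rw [mem_insert, not_or]
            exact ⟨hs, h3⟩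
        have hold : ∀ x y, (∃ f ∈ t, x ∈ f) → (∃ f ∈ t, y ∈ f) →
            Relation.ReflTransGen (R (insert f t) (insert s(a, b) D)) x y := by
          intro x y hx hy
          have := hI.conn x y hx hy
          clear hx hy
          induction this with
          | refl => exact Relation.ReflTransGen.refl
          | tail _ hbc' ih => exact ih.trans (hstep _ _ hbc')
        -- every new vertex is connected to a
        have hto : ∀ x, (∃ f' ∈ insert f t, x ∈ f') →
            Relation.ReflTransGen (R (insert f t) (insert s(a, b) D)) x a ∧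
            Relation.ReflTransGen (R (insert f t) (insert s(a, b) D)) a x := by
          rintro x ⟨f', hf', hx⟩
          rcases mem_insert.1 hf' with rfl | hf'
          · rw [hc] at hx
            simp only [mem_insert, mem_singleton] at hx
            rcases hx with rfl | rfl | rfl
            · exact ⟨Relation.ReflTransGen.refl, Relation.ReflTransGen.refl⟩
            · exact ⟨hold _ _ ⟨g, hg, hbg⟩ ⟨g, hg, hag⟩, hold _ _ ⟨g, hg, hag⟩ ⟨g, hg, hbg⟩⟩
            · exact ⟨Relation.ReflTransGen.single (R_symm hacR), Relation.ReflTransGen.single hacR⟩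
          · exact ⟨hold _ _ ⟨f', hf', hx⟩ ⟨g, hg, hag⟩, hold _ _ ⟨g, hg, hag⟩ ⟨f', hf', hx⟩⟩
        intro x y hx hy
        exact (hto x hx).1.trans (hto y hy).2
    have := htmax (insert f t) (by
      rw [mem_filter, mem_powerset]
      exact ⟨hI'.sub, _, hI'⟩)
    rw [card_insert_of_notMem hft] at this
    omega
  refine ⟨t, htF, hI.mem, hclosed, ?_⟩
  -- counting
  set P : Finset (V × V) := univ.filter (fun p : V × V => p.1 ≠ p.2 ∧ ∃ f ∈ t, p.1 ∈ f ∧ p.2 ∈ f)
    with hP
  set S : Finset V := univ.filter (fun x : V => ∃ f ∈ t, x ∈ f) with hS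
  have hcount : 6 * #t = 2 * #P := by
    have e1 : ∑ f ∈ t, #(P.filter (fun p => p.1 ∈ f ∧ p.2 ∈ f)) = 6 * #t := by
      rw [Finset.sum_congr rfl (g := fun _ => 6), sum_const, smul_eq_mul, mul_comm]
      intro f hf
      have : P.filter (fun p => p.1 ∈ f ∧ p.2 ∈ f) = f.offDiag := by
        ext ⟨x, y⟩
        simp only [hP, mem_filter, mem_univ, true_and, mem_offDiag]
        constructor
        · rintro ⟨⟨h1, _⟩, h2, h3⟩; exact ⟨h2, h3, h1⟩
        · rintro ⟨h2, h3, h1⟩; exact ⟨⟨h1, f, hf, h2, h3⟩, h2, h3⟩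
      rw [this, offDiag_card, hF3 f (htF hf)]
    have e2 : ∑ f ∈ t, #(P.filter (fun p => p.1 ∈ f ∧ p.2 ∈ f))
        = ∑ p ∈ P, #(t.filter (fun f => p.1 ∈ f ∧ p.2 ∈ f)) := by
      simp only [card_filter]
      rw [sum_comm]
    have e3 : ∑ p ∈ P, #(t.filter (fun f => p.1 ∈ f ∧ p.2 ∈ f)) = 2 * #P := by
      rw [Finset.sum_congr rfl (g := fun _ => 2), sum_const, smul_eq_mul, mul_comm]
      rintro ⟨x, y⟩ hp
      rw [hP, mem_filter] at hp
      obtain ⟨_, hxy, g, hg, hx, hy⟩ := hp
      have : t.filter (fun f => x ∈ f ∧ y ∈ f) = F.filter (fun f => x ∈ f ∧ y ∈ f) := by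
        ext f
        simp only [mem_filter]
        constructor
        · rintro ⟨h1, h2⟩; exact ⟨htF h1, h2⟩
        · rintro ⟨h1, h2, h3⟩; exact ⟨hclosed f h1 g hg x y hxy h2 h3 hx hy, h2, h3⟩
      simp only
      rw [this]
      exact h2 x y (hFc g (htF hg) x hx y hy hxy)
    rw [← e1, e2, e3]
  have hr := card_le_of_connected S (R t D)
    (by
      obtain ⟨z, hz⟩ := card_pos.1 (show 0 < #f₀ by rw [hF3 f₀ hf₀]; norm_num)
      exact ⟨z, by rw [hS, mem_filter]; exact ⟨mem_univ _, f₀, hI.mem, hz⟩⟩)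
    (fun x y h => R_symm h) (fun x h => h.1 rfl)
    (fun x y h => by
      obtain ⟨_, ⟨f, hf, hx, hy⟩, _⟩ := h
      rw [hS, mem_filter, mem_filter]
      exact ⟨⟨mem_univ _, f, hf, hx⟩, ⟨mem_univ _, f, hf, hy⟩⟩)
    (fun x hx y hy => by
      rw [hS, mem_filter] at hx hy
      exact hI.conn x y hx.2 hy.2)
  -- R-pairs + 2 #D ≤ P
  have hpairs : #(univ.filter (fun p : V × V => R t D p.1 p.2)) + 2 * #D = #P := by
    have hsplit := card_filter_add_card_filter_not (s := P) (fun p => s(p.1, p.2) ∈ D)
    have e1 : P.filter (fun p => ¬ s(p.1, p.2) ∈ D) = univ.filter (fun p : V × V => R t D p.1 p.2) := by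
      ext ⟨x, y⟩
      simp only [hP, mem_filter, mem_univ, true_and, R]
      tauto
    have e2 : #(P.filter (fun p => s(p.1, p.2) ∈ D)) = 2 * #D := by
      have : P.filter (fun p => s(p.1, p.2) ∈ D) = univ.filter (fun p : V × V => s(p.1, p.2) ∈ D) := by
        ext ⟨x, y⟩
        simp only [hP, mem_filter, mem_univ, true_and]
        constructor
        · exact fun h => h.2
        · intro h
          have := hI.edge x y h
          exact ⟨⟨this.1, this.2.1⟩, h⟩
      rw [this]
      have hfib : ∀ d ∈ D, #((univ.filter (fun p : V × V => s(p.1, p.2) ∈ D)).filter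
          (fun p => s(p.1, p.2) = d)) = 2 := by
        intro d hd
        induction d using Sym2.ind with
        | _ x y =>
        have hxy := (hI.edge x y hd).1
        have : (univ.filter (fun p : V × V => s(p.1, p.2) ∈ D)).filter
          (fun p => s(p.1, p.2) = s(x, y)) = {(x, y), (y, x)} := by
          ext ⟨u, v⟩
          simp only [mem_filter, mem_univ, true_and, mem_insert, mem_singleton, Prod.mk.injEq,
            Sym2.eq_iff]
          constructor
          · exact fun h => h.2
          · rintro (⟨rfl, rfl⟩ | ⟨rfl, rfl⟩)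
            · exact ⟨hd, Or.inl ⟨rfl, rfl⟩⟩
            · exact ⟨by rwa [Sym2.eq_swap], Or.inr ⟨rfl, rfl⟩⟩
        rw [this, card_pair]
        intro h
        rw [Prod.mk.injEq] at h
        exact hxy h.1
      rw [card_eq_sum_card_fiberwise (f := fun p : V × V => s(p.1, p.2)) (t := D)
        (by intro p hp; simpa using hp)]
      rw [Finset.sum_congr rfl hfib, sum_const, smul_eq_mul, mul_comm]
    rw [e1, e2] at hsplit
    omega
  have hc := hI.card
  omega

end

end Pool.Agent.Helper92.P6
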